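import Pool.Agent.MP_ecfd11_lc.H46N.Main

namespace Pool.Agent.Results.MP_ecfd11_lc.ExtendersInHOD

open Pool.Agent.MP_ecfd11_lc Pool.Agent.MP_ecfd11_lc.H20 Pool.Agent.MP_ecfd11_lc.H3U
  Pool.Agent.MP_ecfd11_lc.H46N Pool.Agent.MP_ecfd11_lc.H3G Pool.Agent.MP_ecfd11_lc.H65D

universe u

/-- Let `d` be `t`-strongly compact, `t` regular above `2 ^ (d ∪ x)` with `e ^ k < t` for `e < t`,
and let all regular cardinals in `(x, t⁺]` be omega-strongly measurable in HOD.  Then either `t`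
is supercompact in HOD up to its successor in HOD, or that successor has cofinality omega and
for club many `a < t`: if `|a|` is a singular strong limit cardinal and `cof a > k`, then `a` is
`Q`-strong in HOD for every transitive `Q ∈ V_t` with `a ∈ Q` that is an image in HOD of
`(HOD ∩ V_(a+1)) × n`, with at most `k` cardinals of HOD between `a` and the ordinal `n`. -/
theorem result (d x t : ZFSet.{u}) (k : Cardinal.{u}) (hd : StronglyCompact d t) (hdt : d ∈ t)
    (hx : x ∈ t) (hp : 2 ^ (d ∪ x).card < t.card) (ht : Regular Set.univ t)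
    (hk : Cardinal.aleph0 ≤ k) (hw : ∀ e ∈ t, e.card ^ k < t.card)
    (hs : ∀ l, x ∈ l → l ⊆ succCard t → Regular Set.univ l → StronglyMeasurable Set.univ l) :
    ∃ th, HODSucc t th ∧ (SupHOD t th ∨ CofOmega Set.univ th ∧
    ∃ c, Club t c ∧ ∀ a ∈ c, a.card.IsStrongLimit →
      ¬ Regular Set.univ a.card.ord.toZFSet →
      (∀ y, y ⊆ a → y.card ≤ k → ∃ b ∈ a, ∀ z ∈ y, z ∈ b) →
      ∀ Q, Q ∈ ZFSet.vonNeumann t.rank → Q.IsTransitive → a ∈ Q → FewL k a Q →
        ∃ (M : Set ZFSet.{u}) (i : ZFSet.{u} → ZFSet.{u}), Internal M i ∧ (∀ y ∈ a, i y = y) ∧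
          ∀ z ∈ Q, z ∈ M ∧ (z.IsOrdinal → z ∈ i a)) :=
  H46N.mainL hd hdt hx hp ht hk hw hs

end Pool.Agent.Results.MP_ecfd11_lc.ExtendersInHOD
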