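import Pool.Agent.MP_ecfd11_lc.H13F.Iff

namespace Pool.Agent.Results.MP_ecfd11_lc.FreshSets

open Pool.Agent.MP_ecfd11_lc Pool.Agent.MP_ecfd11_lc.H13F

universe u

/-- Let `d` be extendible and let `r` be an ordinal whose cofinality in HOD is at least `d`.  Then
every `x ⊆ r × Y` (for example a function on `r`) all of whose initial parts `x ∩ (a × Y)`,
`a < r`, are in HOD is itself in HOD if and only if the cofinality of `r` is not `ω`. -/
theorem result (d r : ZFSet.{u}) (hd : Extendible d) (hr : r.IsOrdinal)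
    (hc : ∀ y, HOD Set.univ y → y ⊆ r → y.card < d.card → ∃ c ∈ r, ∀ z ∈ y, z ∈ c) :
    (∀ Y x, x ⊆ ZFSet.prod r Y → (∀ a ∈ r, HOD Set.univ (x ∩ ZFSet.prod a Y)) →
      HOD Set.univ x) ↔ ¬ CofOmega Set.univ r :=
  fresh_iff hd hr hc

end Pool.Agent.Results.MP_ecfd11_lc.FreshSets
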