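import Pool.Agent.MP_ecfd11_lc.Mg.H46_Main

namespace Pool.Agent.Results.MP_ecfd11_lc.SuccessorReflection

open Pool.Agent.MP_ecfd11_lc Pool.Agent.MP_ecfd11_lc.H46

universe u

/-- Let `k` be a singular cardinal of uncountable cofinality `g`, let `X` be a subset of `k` with
initial segments of size less than `g`, and let `e` map `X` to cardinals of HOD strictly between
`k` and its successor.  Then for club many `d < k` the set `e[X ∩ d]` embeds, preserving order,
into the cardinals of HOD strictly between `d` and its successor. -/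
theorem result (g k X : ZFSet.{u}) (e : ZFSet.{u} → ZFSet.{u}) (hg : Cof Set.univ g k)
    (h0 : Cardinal.aleph0 < g.card) (hm : g ∈ k) (hk : ∀ a ∈ k, a.card < k.card)
    (hX : X ⊆ k) (hX' : ∀ d ∈ k, (X ∩ d).card < g.card) (he : ∀ x ∈ X, Between k (e x)) :
    ∃ c, Club k c ∧ ∀ d ∈ c, ∃ F : ZFSet.{u} → ZFSet.{u},
      (∀ x ∈ X ∩ d, Between d (F (e x))) ∧
      ∀ x ∈ X ∩ d, ∀ y ∈ X ∩ d, e x ∈ e y → F (e x) ∈ F (e y) :=
  main (sg_of_cof hg h0 hm hk) hX hX' e he

end Pool.Agent.Results.MP_ecfd11_lc.SuccessorReflection
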