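import Pool.Agent.MP_ecfd11_lc.H23W.Main

namespace Pool.Agent.Results.MP_ecfd11_lc.UltrafiltersInHOD

open Pool.Agent.MP_ecfd11_lc Pool.Agent.MP_ecfd11_lc.H3U Pool.Agent.MP_ecfd11_lc.H13F
  Pool.Agent.MP_ecfd11_lc.H23W

universe u

/-- Let `d` be extendible, let `t ≥ d` be inaccessible, and let fewer than `d` regular cardinals of
HOD of cofinality `ω` lie between `t` and the size of `HOD ∩ V_(t+1)` in HOD.  If `U` is a proper
`t`-complete filter on `t` that measures all subsets of `t` in HOD (for example a `t`-complete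
ultrafilter on `t`), then `U ∩ HOD` is in HOD. -/
theorem result (d t : ZFSet.{u}) (k : Cardinal.{u}) (hd : Extendible d) (ht : Regular Set.univ t)
    (hi : ∀ l < t.card, 2 ^ l < t.card) (hdt : d ⊆ t) (hk : k < d.card)
    (hc : FewOm k t (Lev t)) (U : Filter ZFSet.{u}) (h0 : U.NeBot)
    (h1 : CardinalInterFilter U (Cardinal.lift.{u + 1} t.card)) (h2 : (t : Set ZFSet.{u}) ∈ U)
    (h3 : ∀ A, HOD Set.univ A → A ⊆ t → (A : Set ZFSet.{u}) ∈ U ∨ (A : Set ZFSet.{u})ᶜ ∈ U) :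
    HOD Set.univ ((ZFSet.powerset t).sep fun A => HOD Set.univ A ∧ (A : Set ZFSet.{u}) ∈ U) :=
  H23W.main hd ht hi hdt hk hc U h0 h1 h2 h3

end Pool.Agent.Results.MP_ecfd11_lc.UltrafiltersInHOD
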